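import Pool.Agent.MP_b0afd3_gt.H80.Base

set_option autoImplicit false

namespace Pool.Agent.MP_b0afd3_gt.H95

open Real MeasureTheory Set Filter Topology Pool.Agent.MP_b0afd3_gt.H80

/-- Lebesgue measure on the positive orthant -/
noncomputable def P (n : ℕ) : Measure (Fin n → ℝ) :=
  Measure.pi fun _ => (volume : Measure ℝ).restrict (Ioi 0)

instance (n : ℕ) : SigmaFinite (P n) := by unfold P; infer_instance

lemma P_eq (n : ℕ) : (volume : Measure (Fin n → ℝ)).restrict {y | ∀ i, 0 < y i} = P n := by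
  have : {y : Fin n → ℝ | ∀ i, 0 < y i} = univ.pi fun _ => Ioi 0 := by ext; simp
  rw [this, volume_pi, Measure.restrict_pi_pi]; rfl

lemma ae_pos (n : ℕ) : ∀ᵐ y ∂P n, ∀ i, 0 < y i := by
  rw [← P_eq]
  refine ae_restrict_mem (s := {y : Fin n → ℝ | ∀ i, 0 < y i}) ?_
  simp only [ofPred_forall]
  exact MeasurableSet.iInter fun i => measurableSet_lt measurable_const (measurable_pi_apply i)

lemma int_bound (n : ℕ) (C : ℝ) {k : ℝ} (hk : 0 < k) :
    Integrable (fun y : Fin n → ℝ => C * ((1 + ∑ i, y i ^ 2) * exp (-k * ∑ i, y i ^ 2))) (P n) := by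
  refine Integrable.const_mul ?_ C
  have h : Integrable (fun y : Fin n → ℝ => ∏ i, exp (-(k / 2) * y i ^ 2)) (P n) :=
    Integrable.fintype_prod (f := fun _ t => exp (-(k / 2) * t ^ 2))
      fun _ => (integrable_exp_neg_mul_sq (half_pos hk)).integrableOn
  refine (h.const_mul (1 + 2 / k)).mono' (Continuous.aestronglyMeasurable (by fun_prop))
    (Eventually.of_forall fun y => ?_)
  have s0 : 0 ≤ ∑ i, y i ^ 2 := Finset.sum_nonneg fun i _ => sq_nonneg _
  rw [← exp_sum, ← Finset.mul_sum, Real.norm_eq_abs, abs_of_nonneg (by positivity)]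
  generalize ∑ i, y i ^ 2 = s at s0
  have e : exp (-(k / 2) * s) = exp (k / 2 * s) * exp (-k * s) := by rw [← exp_add]; congr 1; ring
  rw [e, ← mul_assoc]
  refine mul_le_mul_of_nonneg_right ?_ (exp_pos _).le
  have a := add_one_le_exp (k / 2 * s)
  have b : (1 + 2 / k) * (k / 2 * s + 1) = 1 + s + (k / 2 * s + 2 / k) := by field_simp; ring
  have c : 0 ≤ k / 2 * s + 2 / k := by positivity
  nlinarith [mul_le_mul_of_nonneg_left a (show 0 ≤ 1 + 2 / k by positivity)]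

lemma int_of_bound {n : ℕ} {g : (Fin n → ℝ) → ℝ} (hg : Continuous g) (C : ℝ) {k : ℝ} (hk : 0 < k)
    (h : ∀ y, (∀ i, 0 < y i) → |g y| ≤ C * ((1 + ∑ i, y i ^ 2) * exp (-k * ∑ i, y i ^ 2))) :
    Integrable g (P n) :=
  (int_bound n C hk).mono' hg.aestronglyMeasurable ((ae_pos n).mono h)

lemma ftc {n : ℕ} {g G : (Fin (n + 1) → ℝ) → ℝ} (hg : Integrable g (P (n + 1)))
    (hG : Integrable G (P (n + 1)))
    (hd : ∀ z t, HasDerivAt (fun t => G (Fin.cons t z)) (g (Fin.cons t z)) t) :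
    ∫ y, g y ∂P (n + 1) = -∫ z, G (Fin.cons 0 z) ∂P n := by
  have m : MeasurePreserving (MeasurableEquiv.piFinSuccAbove (fun _ : Fin (n + 1) => ℝ) 0).symm
      ((volume.restrict (Ioi (0 : ℝ))).prod (P n)) (P (n + 1)) :=
    (measurePreserving_piFinSuccAbove (fun _ : Fin (n + 1) => volume.restrict (Ioi (0 : ℝ))) 0).symm
  have e : ∀ p : ℝ × (Fin n → ℝ),
      (MeasurableEquiv.piFinSuccAbove (fun _ : Fin (n + 1) => ℝ) 0).symm p = Fin.cons p.1 p.2 :=
    fun p => by simp [MeasurableEquiv.piFinSuccAbove, Fin.insertNthEquiv]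
  have g1 := (m.integrable_comp_emb (MeasurableEquiv.measurableEmbedding _)).2 hg
  have G1 := (m.integrable_comp_emb (MeasurableEquiv.measurableEmbedding _)).2 hG
  rw [← m.integral_comp', ← integral_neg]
  refine (integral_prod_symm _ g1).trans (integral_congr_ae ?_)
  filter_upwards [g1.prod_left_ae, G1.prod_left_ae] with z a b
  simp only [Function.comp, e] at a b ⊢
  rw [integral_Ioi_of_hasDerivAt_of_tendsto' (fun t _ => hd z t) a
    (tendsto_zero_of_hasDerivAt_of_integrableOn_Ioi (fun t _ => hd z t) a b), zero_sub]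

/-- the entries of a symmetric matrix of size four -/
structure Co where
  (p0 p1 p2 p3 q01 q02 q03 q12 q13 q23 : ℝ)

/-- the Gaussian -/
noncomputable def Co.E (h : Co) (s t u v : ℝ) : ℝ :=
  exp ((h.p0 * s ^ 2 + h.p1 * t ^ 2 + h.p2 * u ^ 2 + h.p3 * v ^ 2 + 2 * (h.q01 * s * t +
    h.q02 * s * u + h.q03 * s * v + h.q12 * t * u + h.q13 * t * v + h.q23 * u * v)) / 2)

/-- the first row -/
def Co.L0 (h : Co) (s t u v : ℝ) : ℝ := h.p0 * s + h.q01 * t + h.q02 * u + h.q03 * v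

/-- the second row -/
def Co.L1 (h : Co) (s t u v : ℝ) : ℝ := h.q01 * s + h.p1 * t + h.q12 * u + h.q13 * v

/-- bounds for the entries -/
def Co.Ok (h : Co) (M k : ℝ) : Prop :=
  (-M < h.p0 ∧ h.p0 < -2 * k) ∧ (-M < h.p1 ∧ h.p1 < -2 * k) ∧ (-M < h.p2 ∧ h.p2 < -2 * k) ∧
  (-M < h.p3 ∧ h.p3 < -2 * k) ∧ (-M < h.q01 ∧ h.q01 < 0) ∧ (-M < h.q02 ∧ h.q02 < 0) ∧
  (-M < h.q03 ∧ h.q03 < 0) ∧ (-M < h.q12 ∧ h.q12 < 0) ∧ (-M < h.q13 ∧ h.q13 < 0) ∧
  (-M < h.q23 ∧ h.q23 < 0)

lemma lin_bound {M a b c d s t u v : ℝ} (ha : -M < a ∧ a < 0) (hb : -M < b ∧ b < 0)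
    (hc : -M < c ∧ c < 0) (hd : -M < d ∧ d < 0) (hs : 0 ≤ s) (ht : 0 ≤ t) (hu : 0 ≤ u)
    (hv : 0 ≤ v) : |a * s + b * t + c * u + d * v| ≤ M * (s + t + u + v) := by
  rw [abs_le]
  constructor <;> nlinarith [mul_le_mul_of_nonneg_right ha.1.le hs,
    mul_le_mul_of_nonneg_right hb.1.le ht, mul_le_mul_of_nonneg_right hc.1.le hu,
    mul_le_mul_of_nonneg_right hd.1.le hv, mul_le_mul_of_nonneg_right ha.2.le hs,
    mul_le_mul_of_nonneg_right hb.2.le ht, mul_le_mul_of_nonneg_right hc.2.le hu,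
    mul_le_mul_of_nonneg_right hd.2.le hv]

lemma Co.Ok.E_le {h : Co} {M k : ℝ} (o : h.Ok M k) {s t u v : ℝ} (hs : 0 ≤ s) (ht : 0 ≤ t)
    (hu : 0 ≤ u) (hv : 0 ≤ v) :
    h.E s t u v ≤ exp ((h.p0 * s ^ 2 + h.p1 * t ^ 2 + h.p2 * u ^ 2 + h.p3 * v ^ 2) / 2) := by
  obtain ⟨-, -, -, -, a, b, c, d, e, f⟩ := o
  refine exp_le_exp.2 ?_
  have := mul_nonpos_of_nonpos_of_nonneg a.2.le (mul_nonneg hs ht)
  have := mul_nonpos_of_nonpos_of_nonneg b.2.le (mul_nonneg hs hu)
  have := mul_nonpos_of_nonpos_of_nonneg c.2.le (mul_nonneg hs hv)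
  have := mul_nonpos_of_nonpos_of_nonneg d.2.le (mul_nonneg ht hu)
  have := mul_nonpos_of_nonpos_of_nonneg e.2.le (mul_nonneg ht hv)
  have := mul_nonpos_of_nonpos_of_nonneg f.2.le (mul_nonneg hu hv)
  linarith

lemma Co.Ok.bound {h : Co} {M k : ℝ} (o : h.Ok M k) (hk : 0 < k) {s t u v : ℝ} (hs : 0 ≤ s)
    (ht : 0 ≤ t) (hu : 0 ≤ u) (hv : 0 ≤ v) :
    |h.E s t u v| ≤ 1 * ((1 + (s ^ 2 + t ^ 2 + u ^ 2 + v ^ 2)) *
      exp (-k * (s ^ 2 + t ^ 2 + u ^ 2 + v ^ 2))) ∧
    |h.L1 s t u v * h.E s t u v| ≤ M * ((1 + (s ^ 2 + t ^ 2 + u ^ 2 + v ^ 2)) *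
      exp (-k * (s ^ 2 + t ^ 2 + u ^ 2 + v ^ 2))) ∧
    |(h.q01 + h.L0 s t u v * h.L1 s t u v) * h.E s t u v| ≤ (M + 4 * M ^ 2) *
      ((1 + (s ^ 2 + t ^ 2 + u ^ 2 + v ^ 2)) * exp (-k * (s ^ 2 + t ^ 2 + u ^ 2 + v ^ 2))) := by
  have hE : |h.E s t u v| ≤ exp (-k * (s ^ 2 + t ^ 2 + u ^ 2 + v ^ 2)) := by
    rw [abs_of_pos (show 0 < h.E s t u v from exp_pos _)]
    refine (o.E_le hs ht hu hv).trans (exp_le_exp.2 ?_)
    obtain ⟨a, b, c, d, -⟩ := o
    nlinarith [mul_le_mul_of_nonneg_right a.2.le (sq_nonneg s),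
      mul_le_mul_of_nonneg_right b.2.le (sq_nonneg t),
      mul_le_mul_of_nonneg_right c.2.le (sq_nonneg u),
      mul_le_mul_of_nonneg_right d.2.le (sq_nonneg v)]
  obtain ⟨a0, a1, -, -, a, b, c, d, e, -⟩ := o
  have M0 : 0 < M := by linarith [a.1, a.2]
  have l0 : |h.L0 s t u v| ≤ _ := lin_bound ⟨a0.1, by linarith [a0.2]⟩ a b c hs ht hu hv
  have l1 : |h.L1 s t u v| ≤ _ := lin_bound a ⟨a1.1, by linarith [a1.2]⟩ d e hs ht hu hv
  have w1 : (s + t + u + v) ^ 2 ≤ 4 * (s ^ 2 + t ^ 2 + u ^ 2 + v ^ 2) := by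
    nlinarith [sq_nonneg (s - t), sq_nonneg (s - u), sq_nonneg (s - v), sq_nonneg (t - u),
      sq_nonneg (t - v), sq_nonneg (u - v)]
  have w2 : s + t + u + v ≤ 1 + (s ^ 2 + t ^ 2 + u ^ 2 + v ^ 2) := by
    nlinarith [sq_nonneg ((s + t + u + v) / 2 - 1)]
  have r0 : 0 ≤ s ^ 2 + t ^ 2 + u ^ 2 + v ^ 2 := by positivity
  have w0 : 0 ≤ s + t + u + v := by positivity
  generalize s ^ 2 + t ^ 2 + u ^ 2 + v ^ 2 = r at *
  generalize s + t + u + v = w at *
  refine ⟨?_, ?_, ?_⟩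
  · nlinarith [mul_nonneg r0 (exp_pos (-k * r)).le]
  · rw [abs_mul, ← mul_assoc]
    exact mul_le_mul (l1.trans (mul_le_mul_of_nonneg_left w2 M0.le)) hE (abs_nonneg _)
      (by positivity)
  · rw [abs_mul, ← mul_assoc]
    refine mul_le_mul ((abs_add_le _ _).trans ?_) hE (abs_nonneg _) (by positivity)
    have b1 : |h.q01| ≤ M := abs_le.2 ⟨a.1.le, by linarith [a.2]⟩
    have b2 : |h.L0 s t u v * h.L1 s t u v| ≤ M * w * (M * w) := by
      rw [abs_mul]; exact mul_le_mul l0 l1 (abs_nonneg _) (by positivity)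
    nlinarith [mul_le_mul_of_nonneg_left w1 (sq_nonneg M), mul_nonneg M0.le r0, sq_nonneg M]

lemma quad {g : ℝ → ℝ} (α β γ : ℝ) (h : ∀ x, g x = α + β * x + γ * x ^ 2) (x : ℝ) {D : ℝ}
    (hD : D = β + 2 * γ * x) : HasDerivAt g D x := by
  obtain rfl : g = fun x => α + β * x + γ * x ^ 2 := funext h
  have := (((hasDerivAt_id x).const_mul β).const_add α).add ((hasDerivAt_pow 2 x).const_mul γ)
  refine this.congr_deriv ?_
  rw [hD]; simp; ring

lemma Co.d0 (h : Co) (s t u v : ℝ) :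
    HasDerivAt (fun s => h.E s t u v) (h.L0 s t u v * h.E s t u v) s := by
  rw [mul_comm]
  exact (quad ((h.p1 * t ^ 2 + h.p2 * u ^ 2 + h.p3 * v ^ 2) / 2 + h.q12 * t * u + h.q13 * t * v +
    h.q23 * u * v) (h.q01 * t + h.q02 * u + h.q03 * v) (h.p0 / 2) (fun s => by ring) s
    (by unfold Co.L0; ring)).exp

lemma Co.d1 (h : Co) (s t u v : ℝ) :
    HasDerivAt (fun t => h.E s t u v) (h.L1 s t u v * h.E s t u v) t := by
  rw [mul_comm]
  exact (quad ((h.p0 * s ^ 2 + h.p2 * u ^ 2 + h.p3 * v ^ 2) / 2 + h.q02 * s * u + h.q03 * s * v +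
    h.q23 * u * v) (h.q01 * s + h.q12 * u + h.q13 * v) (h.p1 / 2) (fun s => by ring) t
    (by unfold Co.L1; ring)).exp

lemma Co.Ok.intE {h : Co} {M k : ℝ} (o : h.Ok M k) (hk : 0 < k) :
    Integrable (fun y : Fin 4 → ℝ => h.E (y 0) (y 1) (y 2) (y 3)) (P 4) :=
  int_of_bound (by unfold Co.E; fun_prop) 1 hk fun y hy => by
    simpa only [Fin.sum_univ_four] using (o.bound hk (hy 0).le (hy 1).le (hy 2).le (hy 3).le).1

lemma plackett {h : Co} {M k : ℝ} (o : h.Ok M k) (hk : 0 < k) :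
    ∫ y : Fin 4 → ℝ, (h.q01 + h.L0 (y 0) (y 1) (y 2) (y 3) * h.L1 (y 0) (y 1) (y 2) (y 3)) *
      h.E (y 0) (y 1) (y 2) (y 3) ∂P 4 = ∫ z : Fin 2 → ℝ, h.E 0 0 (z 0) (z 1) ∂P 2 := by
  have e1 := ftc (n := 3) (g := fun y => (h.q01 + h.L0 (y 0) (y 1) (y 2) (y 3) *
      h.L1 (y 0) (y 1) (y 2) (y 3)) * h.E (y 0) (y 1) (y 2) (y 3))
    (G := fun y => h.L1 (y 0) (y 1) (y 2) (y 3) * h.E (y 0) (y 1) (y 2) (y 3))
    (int_of_bound (n := 4) (by unfold Co.E Co.L0 Co.L1; fun_prop) (M + 4 * M ^ 2) hk fun y hy => by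
      simpa only [Fin.sum_univ_four] using
        (o.bound hk (hy 0).le (hy 1).le (hy 2).le (hy 3).le).2.2)
    (int_of_bound (n := 4) (by unfold Co.E Co.L1; fun_prop) M hk fun y hy => by
      simpa only [Fin.sum_univ_four] using
        (o.bound hk (hy 0).le (hy 1).le (hy 2).le (hy 3).le).2.1)
    (fun z t => by
      have a : HasDerivAt (fun t => h.L1 t (z 0) (z 1) (z 2)) h.q01 t :=
        quad (h.p1 * z 0 + h.q12 * z 1 + h.q13 * z 2) h.q01 0 (fun s => by unfold Co.L1; ring) t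
          (by ring)
      refine (a.mul (h.d0 t (z 0) (z 1) (z 2))).congr_deriv ?_
      show _ = (h.q01 + h.L0 t (z 0) (z 1) (z 2) * h.L1 t (z 0) (z 1) (z 2)) *
        h.E t (z 0) (z 1) (z 2)
      ring)
  have e2 := ftc (n := 2) (g := fun y => h.L1 0 (y 0) (y 1) (y 2) * h.E 0 (y 0) (y 1) (y 2))
    (G := fun y => h.E 0 (y 0) (y 1) (y 2))
    (int_of_bound (n := 3) (by unfold Co.E Co.L1; fun_prop) M hk fun y hy => by
      simpa [Fin.sum_univ_three] using (o.bound hk le_rfl (hy 0).le (hy 1).le (hy 2).le).2.1)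
    (int_of_bound (n := 3) (by unfold Co.E; fun_prop) 1 hk fun y hy => by
      simpa [Fin.sum_univ_three] using (o.bound hk le_rfl (hy 0).le (hy 1).le (hy 2).le).1)
    (fun z t => h.d1 0 t (z 0) (z 1))
  exact e1.trans ((congrArg Neg.neg e2).trans (neg_neg _))

lemma rat_int {p q s Δ : ℝ} (hp : 0 < p) (hq : 0 < q) (hs : 0 < s) (hΔ : 0 < Δ)
    (h : Δ ^ 2 = q ^ 2 - p * s) :
    IntegrableOn (fun t => (p + 2 * q * t + s * t ^ 2)⁻¹) (Ioi 0) ∧
      ∫ t in Ioi (0 : ℝ), (p + 2 * q * t + s * t ^ 2)⁻¹ = log ((q + Δ) / √(p * s)) / Δ := by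
  have hlt : 0 < q - Δ := by nlinarith [mul_pos hp hs]
  have hd : ∀ t ∈ Ici (0 : ℝ), HasDerivAt (fun t => log (1 - 2 * Δ / (s * t + q + Δ)) / (2 * Δ))
      (p + 2 * q * t + s * t ^ 2)⁻¹ t := fun t ht => by
    have ht : 0 ≤ t := ht
    have a1 : 0 < s * t + q + Δ := by positivity
    have a2 : 0 < s * t + q - Δ := by nlinarith [mul_nonneg hs.le ht]
    have a3 : 1 - 2 * Δ / (s * t + q + Δ) = (s * t + q - Δ) / (s * t + q + Δ) := by
      field_simp; ring
    have b : HasDerivAt (fun t => s * t + q + Δ) s t :=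
      quad (q + Δ) s 0 (fun x => by ring) t (by ring)
    have c := ((((hasDerivAt_const t (2 * Δ)).div b a1.ne').const_sub 1).log
      (by simp only [Pi.div_apply]; rw [a3]; positivity)).div_const (2 * Δ)
    refine c.congr_deriv ?_
    have a4 : p + 2 * q * t + s * t ^ 2 = (s * t + q - Δ) * (s * t + q + Δ) / s := by
      field_simp; nlinarith
    simp only [Pi.div_apply]
    rw [a3, a4]
    field_simp
    ring
  have hl : Tendsto (fun t => log (1 - 2 * Δ / (s * t + q + Δ)) / (2 * Δ)) atTop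
      (𝓝 (log (1 - 0) / (2 * Δ))) := by
    refine (Tendsto.log (tendsto_const_nhds.sub (tendsto_const_nhds.div_atTop ?_))
      (by norm_num)).div_const _
    exact tendsto_atTop_add_const_right _ _ (tendsto_atTop_add_const_right _ _
      (tendsto_id.const_mul_atTop hs))
  have hi := integrableOn_Ioi_deriv_of_nonneg' hd (fun t ht => by
    have : 0 < t := ht
    positivity) hl
  refine ⟨hi, ?_⟩
  rw [integral_Ioi_of_hasDerivAt_of_tendsto' hd hi hl]
  have a3 : 1 - 2 * Δ / (s * 0 + q + Δ) = (((q + Δ) / √(p * s)) ^ 2)⁻¹ := by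
    rw [div_pow, sq_sqrt (by positivity), show p * s = (q - Δ) * (q + Δ) by nlinarith]
    field_simp; ring
  rw [a3, log_inv, log_pow]
  simp only [sub_zero, log_one]
  field_simp
  ring

lemma gauss2 {p q s Δ : ℝ} (hp : 0 < p) (hq : 0 < q) (hs : 0 < s) (hΔ : 0 < Δ)
    (h : Δ ^ 2 = q ^ 2 - p * s) :
    ∫ z : Fin 2 → ℝ, exp (-(p * z 0 ^ 2 + 2 * q * z 0 * z 1 + s * z 1 ^ 2) / 2) ∂P 2 =
      log ((q + Δ) / √(p * s)) / Δ := by
  obtain ⟨r1, r2⟩ := rat_int hp hq hs hΔ h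
  have m : MeasurePreserving (MeasurableEquiv.finTwoArrow (α := ℝ)).symm
      ((volume.restrict (Ioi (0 : ℝ))).prod (volume.restrict (Ioi (0 : ℝ)))) (P 2) :=
    (measurePreserving_finTwoArrow (volume.restrict (Ioi (0 : ℝ)))).symm
  have i1 : Integrable (fun z : Fin 2 → ℝ =>
      exp (-(p * z 0 ^ 2 + 2 * q * z 0 * z 1 + s * z 1 ^ 2) / 2)) (P 2) :=
    int_of_bound (by fun_prop) 1 (half_pos (lt_min hp hs)) fun y hy => by
      rw [abs_of_pos (exp_pos _), Fin.sum_univ_two, one_mul]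
      refine le_trans (exp_le_exp.2 ?_) (le_mul_of_one_le_left (exp_pos _).le
        (by nlinarith [sq_nonneg (y 0), sq_nonneg (y 1)]))
      nlinarith [mul_le_mul_of_nonneg_right (min_le_left p s) (sq_nonneg (y 0)),
        mul_le_mul_of_nonneg_right (min_le_right p s) (sq_nonneg (y 1)),
        mul_pos hq (mul_pos (hy 0) (hy 1))]
  have inner : ∀ t ∈ Ioi (0 : ℝ),
      IntegrableOn (fun u => u * exp (-((p + 2 * q * t + s * t ^ 2) / 2) * u ^ 2)) (Ioi 0) ∧
      ∫ u in Ioi (0 : ℝ), u * exp (-((p + 2 * q * t + s * t ^ 2) / 2) * u ^ 2) =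
        (p + 2 * q * t + s * t ^ 2)⁻¹ := fun t ht => by
    have ht : 0 < t := ht
    have c0 : 0 < p + 2 * q * t + s * t ^ 2 := by positivity
    generalize p + 2 * q * t + s * t ^ 2 = c at c0
    have a := (integrable_mul_exp_neg_mul_sq (half_pos c0)).integrableOn (s := Ioi 0)
    have b : ∀ u, HasDerivAt (fun u => -c⁻¹ * exp (-(c / 2) * u ^ 2))
        (u * exp (-(c / 2) * u ^ 2)) u := fun u => by
      refine ((quad 0 0 (-(c / 2)) (g := fun u => -(c / 2) * u ^ 2) (fun x => by ring) u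
        rfl).exp.const_mul (-c⁻¹)).congr_deriv ?_
      field_simp; ring
    refine ⟨a, ?_⟩
    rw [integral_Ioi_of_hasDerivAt_of_tendsto' (fun u _ => b u) a
      (tendsto_zero_of_hasDerivAt_of_integrableOn_Ioi (fun u _ => b u) a
        ((integrable_exp_neg_mul_sq (half_pos c0)).const_mul _).integrableOn)]
    simp
  have i2 : Integrable (Function.uncurry fun u t : ℝ =>
      u * exp (-((p + 2 * q * t + s * t ^ 2) / 2) * u ^ 2))
      ((volume.restrict (Ioi (0 : ℝ))).prod (volume.restrict (Ioi (0 : ℝ)))) := by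
    refine (integrable_prod_iff' (Continuous.aestronglyMeasurable (by fun_prop))).2
      ⟨(ae_restrict_mem measurableSet_Ioi).mono fun t ht => (inner t ht).1, r1.congr ?_⟩
    refine (ae_restrict_mem measurableSet_Ioi).mono fun t ht => ?_
    simp only [Function.uncurry]
    rw [← (inner t ht).2]
    refine setIntegral_congr_fun measurableSet_Ioi fun u hu => ?_
    have : 0 < u := hu
    simp only [Real.norm_eq_abs]
    rw [abs_of_pos (by positivity)]
  rw [← m.integral_comp', ← r2,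
    ← setIntegral_congr_fun measurableSet_Ioi fun t ht => (inner t ht).2,
    ← integral_integral_swap i2]
  refine (integral_prod _ ((m.integrable_comp_emb
    (MeasurableEquiv.measurableEmbedding _)).2 i1)).trans
    (setIntegral_congr_fun measurableSet_Ioi fun u hu => ?_)
  have hu : 0 < u := hu
  have := integral_comp_mul_left_Ioi' (fun v => exp (-(p * u ^ 2 + 2 * q * u * v + s * v ^ 2) / 2))
    0 hu
  rw [mul_zero, smul_eq_mul, ← integral_const_mul] at this
  refine this.symm.trans (setIntegral_congr_fun measurableSet_Ioi fun t _ => ?_)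
  congr 2
  ring

/-- the inverse of the Gram matrix -/
noncomputable def co (a b c d e f : ℝ) : Co :=
  ⟨vtx f b c / gdet a b c d e f, vtx f d e / gdet a b c d e f, vtx a b d / gdet a b c d e f,
    vtx a c e / gdet a b c d e f, cof f b d c e a / gdet a b c d e f,
    cof b f d c a e / gdet a b c d e f, cof c f e b a d / gdet a b c d e f,
    cof d f b e a c / gdet a b c d e f, cof e f c d a b / gdet a b c d e f,
    cof a b c d e f / gdet a b c d e f⟩

lemma co_E (a b c d e f : ℝ) (y : Fin 4 → ℝ) : exp (adjq a b c d e f y / (2 * gdet a b c d e f)) =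
    (co a b c d e f).E (y 0) (y 1) (y 2) (y 3) := by
  unfold Co.E co adjq
  congr 1
  ring

lemma gvol_eq (a b c d e f : ℝ) : gvol a b c d e f = ∫ y : Fin 4 → ℝ,
    1 / (2 * √(-gdet a b c d e f)) * (co a b c d e f).E (y 0) (y 1) (y 2) (y 3) ∂P 4 := by
  rw [gvol, P_eq, integral_const_mul]
  simp only [co_E]

lemma exists_ok {a b c d e f : ℝ} (hd : gdet a b c d e f < 0) (hp : Pos a b c d e f) :
    ∃ M k, 0 < k ∧ (co a b c d e f).Ok M k := by
  have a0 : (co a b c d e f).p0 < 0 := div_neg_of_pos_of_neg hp.v0 hd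
  have a1 : (co a b c d e f).p1 < 0 := div_neg_of_pos_of_neg hp.v1 hd
  have a2 : (co a b c d e f).p2 < 0 := div_neg_of_pos_of_neg hp.v2 hd
  have a3 : (co a b c d e f).p3 < 0 := div_neg_of_pos_of_neg hp.v3 hd
  have b0 : (co a b c d e f).q01 < 0 := div_neg_of_pos_of_neg hp.c01 hd
  have b1 : (co a b c d e f).q02 < 0 := div_neg_of_pos_of_neg hp.c02 hd
  have b2 : (co a b c d e f).q03 < 0 := div_neg_of_pos_of_neg hp.c03 hd
  have b3 : (co a b c d e f).q12 < 0 := div_neg_of_pos_of_neg hp.c12 hd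
  have b4 : (co a b c d e f).q13 < 0 := div_neg_of_pos_of_neg hp.c13 hd
  have b5 : (co a b c d e f).q23 < 0 := div_neg_of_pos_of_neg hp.c23 hd
  generalize co a b c d e f = h at *
  obtain ⟨k, k0, k1, k2, k3, k4⟩ : ∃ k > 0, 4 * k ≤ -h.p0 ∧ 4 * k ≤ -h.p1 ∧ 4 * k ≤ -h.p2 ∧
      4 * k ≤ -h.p3 := ⟨min (min (-h.p0) (-h.p1)) (min (-h.p2) (-h.p3)) / 4, by
        simp only [min_def]; split_ifs <;> refine ⟨?_, ?_, ?_, ?_, ?_⟩ <;> linarith⟩
  refine ⟨1 - (h.p0 + h.p1 + h.p2 + h.p3 + h.q01 + h.q02 + h.q03 + h.q12 + h.q13 + h.q23), k, k0,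
    ⟨?_, ?_⟩, ⟨?_, ?_⟩, ⟨?_, ?_⟩, ⟨?_, ?_⟩, ⟨?_, ?_⟩, ⟨?_, ?_⟩, ⟨?_, ?_⟩, ⟨?_, ?_⟩, ⟨?_, ?_⟩,
    ⟨?_, ?_⟩⟩ <;> linarith

lemma ok_near {a b c d e f M k : ℝ} (hd : gdet a b c d e f < 0) (o : (co a b c d e f).Ok M k) :
    ∀ᶠ x in 𝓝 a, (co x b c d e f).Ok M k := by
  have key : ∀ {u : ℝ → ℝ} {l r : ℝ}, Continuous u →
      l < u a / gdet a b c d e f ∧ u a / gdet a b c d e f < r →
      ∀ᶠ x in 𝓝 a, l < u x / gdet x b c d e f ∧ u x / gdet x b c d e f < r := fun hu h =>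
    (hu.continuousAt.div (f := _) (g := fun x => gdet x b c d e f) (by unfold gdet; fun_prop)
      hd.ne).eventually (Ioo_mem_nhds h.1 h.2)
  obtain ⟨a0, a1, a2, a3, b0, b1, b2, b3, b4, b5⟩ := o
  exact (key continuous_const a0).and <| (key continuous_const a1).and <|
    (key (u := fun x => vtx x b d) (by unfold vtx; fun_prop) a2).and <|
    (key (u := fun x => vtx x c e) (by unfold vtx; fun_prop) a3).and <|
    (key (u := fun x => cof f b d c e x) (by unfold cof; fun_prop) b0).and <|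
    (key (u := fun x => cof b f d c x e) (by unfold cof; fun_prop) b1).and <|
    (key (u := fun x => cof c f e b x d) (by unfold cof; fun_prop) b2).and <|
    (key (u := fun x => cof d f b e x c) (by unfold cof; fun_prop) b3).and <|
    (key (u := fun x => cof e f c d x b) (by unfold cof; fun_prop) b4).and <|
    key (u := fun x => cof x b c d e f) (by unfold cof; fun_prop) b5

lemma dx {x b c d e f : ℝ} (hd : gdet x b c d e f < 0) (y : Fin 4 → ℝ) :
    HasDerivAt (fun x => 1 / (2 * √(-gdet x b c d e f)) *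
      (co x b c d e f).E (y 0) (y 1) (y 2) (y 3))
      (-(1 / (2 * √(-gdet x b c d e f))) * (((co x b c d e f).q01 +
        (co x b c d e f).L0 (y 0) (y 1) (y 2) (y 3) * (co x b c d e f).L1 (y 0) (y 1) (y 2) (y 3)) *
        (co x b c d e f).E (y 0) (y 1) (y 2) (y 3))) x := by
  have hD : HasDerivAt (fun x => gdet x b c d e f) (2 * cof f b d c e x) x :=
    quad (gdet 0 b c d e f) (2 * cof f b d c e 0) (f ^ 2 - 1) (fun x => by unfold gdet cof; ring) x
      (by unfold cof; ring)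
  have w0 : 0 < √(-gdet x b c d e f) := sqrt_pos.2 (by linarith)
  have h1 : HasDerivAt (fun x => 1 / (2 * √(-gdet x b c d e f)))
      (-(1 / (2 * √(-gdet x b c d e f))) * (co x b c d e f).q01) x := by
    refine ((hasDerivAt_const x (1 : ℝ)).div ((hD.neg.sqrt
      (by simp only [Pi.neg_apply]; linarith)).const_mul 2) (by positivity)).congr_deriv ?_
    have : gdet x b c d e f = -√(-gdet x b c d e f) ^ 2 := by rw [sq_sqrt (by linarith), neg_neg]
    simp only [Pi.neg_apply, co]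
    generalize √(-gdet x b c d e f) = w at *
    rw [this]
    field_simp
    ring
  have hA : HasDerivAt (fun x => adjq x b c d e f y)
      (2 * (b * d - x) * y 2 ^ 2 + 2 * (c * e - x) * y 3 ^ 2 + 2 * ((f ^ 2 - 1) * y 0 * y 1 +
        (c - b * f) * y 0 * y 2 + (b - c * f) * y 0 * y 3 + (e - d * f) * y 1 * y 2 +
        (d - e * f) * y 1 * y 3 + (2 * f * x - b * e - c * d) * y 2 * y 3)) x :=
    quad (adjq 0 b c d e f y) (2 * b * d * y 2 ^ 2 + 2 * c * e * y 3 ^ 2 +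
      2 * ((f ^ 2 - 1) * y 0 * y 1 + (c - b * f) * y 0 * y 2 + (b - c * f) * y 0 * y 3 +
        (e - d * f) * y 1 * y 2 + (d - e * f) * y 1 * y 3 - (b * e + c * d) * y 2 * y 3))
      (2 * f * y 2 * y 3 - y 2 ^ 2 - y 3 ^ 2) (fun x => by unfold adjq vtx cof; ring) x (by ring)
  have h2 : HasDerivAt (fun x => adjq x b c d e f y / (2 * gdet x b c d e f))
      (-((co x b c d e f).L0 (y 0) (y 1) (y 2) (y 3) *
        (co x b c d e f).L1 (y 0) (y 1) (y 2) (y 3))) x := by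
    refine (hA.div (hD.const_mul 2) (by linarith)).congr_deriv ?_
    have := hd.ne
    simp only [Co.L0, Co.L1, co]
    field_simp
    unfold adjq gdet vtx cof
    ring
  have h3 := h1.mul h2.exp
  simp only [co_E] at h3
  refine h3.congr_deriv ?_
  ring

/-- Schlaefli formula through Plackett's identity -/
theorem schlaefli {a b c d e f : ℝ} (hd : gdet a b c d e f < 0) (hp : Pos a b c d e f)
    (ha : a ^ 2 < 1) :
    HasDerivAt (fun x => gvol x b c d e f)
      (-log (rho (cof a b c d e f / √(vtx a b d * vtx a c e))) / (2 * √(1 - a ^ 2))) a := by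
  obtain ⟨M, k, hk, o⟩ := exists_ok hd hp
  have w0 : 0 < √(-gdet a b c d e f) := sqrt_pos.2 (by linarith)
  have cD : Continuous fun x => gdet x b c d e f := by unfold gdet; fun_prop
  have n1 : ∀ᶠ x in 𝓝 a, gdet x b c d e f < 0 := cD.continuousAt.eventually (Iio_mem_nhds hd)
  have n2 : ∀ᶠ x in 𝓝 a, √(-gdet a b c d e f) / 2 < √(-gdet x b c d e f) :=
    (cD.neg.sqrt).continuousAt.eventually (Ioi_mem_nhds (half_lt_self w0))
  simp only [gvol_eq]
  refine (hasDerivAt_integral_of_dominated_loc_of_deriv_le ((ok_near hd o).and (n1.and n2))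
    (Eventually.of_forall fun x => Continuous.aestronglyMeasurable (by unfold Co.E; fun_prop))
    ((o.intE hk).const_mul _)
    (Continuous.aestronglyMeasurable (by unfold Co.E Co.L0 Co.L1; fun_prop))
    ((ae_pos 4).mono fun y hy x hx => ?_)
    (int_bound 4 (1 / √(-gdet a b c d e f) * (M + 4 * M ^ 2)) hk)
    (Eventually.of_forall fun y x hx => dx hx.2.1 y)).2.congr_deriv ?_
  · rw [Real.norm_eq_abs, abs_mul, mul_assoc, Fin.sum_univ_four]
    refine mul_le_mul ?_ (hx.1.bound hk (hy 0).le (hy 1).le (hy 2).le (hy 3).le).2.2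
      (abs_nonneg _) (by positivity)
    rw [abs_neg, abs_of_nonneg (by positivity)]
    exact one_div_le_one_div_of_le w0 (by linarith [hx.2.2])
  · rw [integral_const_mul, plackett o hk]
    have s0 : 0 < √(1 - a ^ 2) := sqrt_pos.2 (by linarith)
    have hw : gdet a b c d e f = -√(-gdet a b c d e f) ^ 2 := by
      rw [sq_sqrt (by linarith), neg_neg]
    have hs : √(1 - a ^ 2) ^ 2 = 1 - a ^ 2 := sq_sqrt (by linarith)
    have id : cof a b c d e f ^ 2 - vtx a b d * vtx a c e = -gdet a b c d e f * (1 - a ^ 2) := by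
      unfold cof vtx gdet; ring
    have v2 := hp.v2
    have v3 := hp.v3
    have c0 := hp.c23
    have r0 : 0 < √(vtx a b d * vtx a c e) := sqrt_pos.2 (by positivity)
    have hr : √(vtx a b d * vtx a c e) ^ 2 = vtx a b d * vtx a c e := sq_sqrt (by positivity)
    have e1 : ∀ z : Fin 2 → ℝ, (co a b c d e f).E 0 0 (z 0) (z 1) =
        exp (-(vtx a b d / -gdet a b c d e f * z 0 ^ 2 +
          2 * (cof a b c d e f / -gdet a b c d e f) * z 0 * z 1 +
          vtx a c e / -gdet a b c d e f * z 1 ^ 2) / 2) := fun z => by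
      unfold Co.E co
      congr 1
      simp only [div_neg]
      ring
    simp only [e1]
    rw [← hs] at id
    generalize √(-gdet a b c d e f) = w at *
    generalize √(1 - a ^ 2) = s at *
    rw [hw, neg_neg] at id ⊢
    rw [gauss2 (by positivity) (by positivity) (by positivity) (show 0 < s / w by positivity) (by
      field_simp; nlinarith)]
    have e2 : √(vtx a b d / w ^ 2 * (vtx a c e / w ^ 2)) = √(vtx a b d * vtx a c e) / w ^ 2 := by
      rw [div_mul_div_comm, sqrt_div (by positivity), sqrt_mul_self (by positivity)]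
    rw [e2]
    rw [← hr] at id
    generalize √(vtx a b d * vtx a c e) = r at *
    generalize cof a b c d e f = q at *
    have e3 : √((q / r) ^ 2 - 1) = w * s / r := by
      rw [sqrt_eq_iff_mul_self_eq_of_pos (by positivity)]
      field_simp; nlinarith
    have e4 : rho (q / r) = (q / w ^ 2 + s / w) / (r / w ^ 2) := by
      have : r < q := lt_of_pow_lt_pow_left₀ 2 c0.le (by nlinarith [sq_pos_of_pos (mul_pos w0 s0)])
      rw [rho, e3, abs_of_pos (by positivity), max_eq_right]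
      · field_simp
      · have : 1 < q / r := (one_lt_div r0).2 this
        have : 0 < w * s / r := by positivity
        linarith
    rw [e4]
    field_simp

theorem gvol_le {a b c d e f : ℝ} (hd : gdet a b c d e f < 0) (hp : Pos a b c d e f) :
    0 ≤ gvol a b c d e f ∧ gvol a b c d e f ≤
      π ^ 2 / 8 * √(-gdet a b c d e f) ^ 3 / √(vtx f b c * vtx f d e * vtx a b d * vtx a c e) := by
  obtain ⟨M, k, hk, o⟩ := exists_ok hd hp
  have w0 : 0 < √(-gdet a b c d e f) := sqrt_pos.2 (by linarith)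
  rw [gvol_eq, integral_const_mul]
  refine ⟨mul_nonneg (by positivity) (integral_nonneg fun y => (exp_pos _).le), ?_⟩
  let v : Fin 4 → ℝ := ![vtx f b c, vtx f d e, vtx a b d, vtx a c e]
  have v0 : ∀ i, 0 < v i / (2 * -gdet a b c d e f) := fun i => by
    refine div_pos ?_ (by linarith)
    fin_cases i
    exacts [hp.v0, hp.v1, hp.v2, hp.v3]
  have h1 : ∫ y : Fin 4 → ℝ, (co a b c d e f).E (y 0) (y 1) (y 2) (y 3) ∂P 4 ≤
      ∫ y : Fin 4 → ℝ, ∏ i, exp (-(v i / (2 * -gdet a b c d e f)) * y i ^ 2) ∂P 4 := by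
    refine integral_mono_ae (o.intE hk) (Integrable.fintype_prod
      (f := fun i t => exp (-(v i / (2 * -gdet a b c d e f)) * t ^ 2))
      fun i => (integrable_exp_neg_mul_sq (v0 i)).integrableOn) ((ae_pos 4).mono fun y hy => ?_)
    refine (o.E_le (hy 0).le (hy 1).le (hy 2).le (hy 3).le).trans (le_of_eq ?_)
    simp only
    rw [← exp_sum, Fin.sum_univ_four]
    congr 1
    simp only [co, v, mul_neg, div_neg, Matrix.cons_val]
    ring
  have h2 := integral_fintype_prod_eq_prod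
    (μ := fun _ : Fin 4 => (volume : Measure ℝ).restrict (Ioi 0))
    (fun i t => exp (-(v i / (2 * -gdet a b c d e f)) * t ^ 2))
  simp only [integral_gaussian_Ioi] at h2
  refine (mul_le_mul_of_nonneg_left (h1.trans h2.le) (by positivity)).trans (le_of_eq ?_)
  have hw : -gdet a b c d e f = √(-gdet a b c d e f) ^ 2 := (sq_sqrt (by linarith)).symm
  have e1 : ∀ x, 0 < x → √(π / (x / (2 * -gdet a b c d e f))) =
      √(2 * π) * √(-gdet a b c d e f) / √x := fun x hx => by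
    rw [← sqrt_mul (by positivity), ← sqrt_div' _ hx.le]
    congr 1
    have := hd.ne
    field_simp
  rw [Fin.prod_univ_four]
  simp only [v, Matrix.cons_val]
  rw [e1 _ hp.v0, e1 _ hp.v1, e1 _ hp.v2, e1 _ hp.v3,
    sqrt_mul (mul_pos (mul_pos hp.v0 hp.v1) hp.v2).le, sqrt_mul (mul_pos hp.v0 hp.v1).le,
    sqrt_mul hp.v0.le]
  have t0 := sqrt_pos.2 hp.v0
  have t1 := sqrt_pos.2 hp.v1
  have t2 := sqrt_pos.2 hp.v2
  have t3 := sqrt_pos.2 hp.v3
  have e2 : π = √(2 * π) ^ 2 / 2 := by rw [sq_sqrt (by positivity)]; ring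
  generalize √(2 * π) = g at *
  rw [e2]
  field_simp
  ring

end Pool.Agent.MP_b0afd3_gt.H95
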